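import Pool.Agent.TH464.PO.Gen
import Pool.Agent.TH464.PO.PolyExact
import Pool.Agent.TH464.PO.QuadAP

set_option autoImplicit false

/-!
# Almost prime values of systems of polynomials: gap law, and the condition on the values
-/

namespace Pool.Agent.Y871.AP

open Polynomial Finset Filter
open Pool.Agent.W123.RP Pool.Agent.H373R2.T7 Pool.Agent.W123.RU Pool.Agent.W123.RU.Poly
open Pool.Agent.TH464.PW Pool.Agent.TH464.PO

variable {ι : Type} [Fintype ι]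

open Classical in
/-- **The gap laws** for systems of polynomials. -/
theorem gap_poly [Nonempty ι] (f : ι → ℤ[X]) (hf : Sys f) (hT : NoTr f) (θ : ℝ) (hθ : 0 < θ)
    (k0 : ℕ) (x0 ε : ℝ) (hε : 0 < ε) :
    ∃ r0 : ℕ, ∀ r : ℕ, r0 ≤ r → ∀ᶠ X : ℕ in atTop, ∀ Y : ℕ, (X : ℝ) ^ θ ≤ Y →
      ∀ k T : ℕ, (k ≤ k0 ∨ T * Vq (Q f) ⌊(X : ℝ) ^ (1 / (r : ℝ))⌋₊ ≤ x0) →
        |(Pk (Sf (Q f) ⌊(X : ℝ) ^ (1 / (r : ℝ))⌋₊) k T X Y : ℝ) -
          Y * Vq (Q f) ⌊(X : ℝ) ^ (1 / (r : ℝ))⌋₊ * Ck k (T * Vq (Q f) ⌊(X : ℝ) ^ (1 / (r : ℝ))⌋₊)| ≤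
          ε * (Y * Vq (Q f) ⌊(X : ℝ) ^ (1 / (r : ℝ))⌋₊) := by
  obtain ⟨c, hc, hQ⟩ := exists_c f hf
  obtain ⟨K0, y0, T0, R0, η', κ, x1, hη', hκ, hx1, hgap⟩ := gen_gap c hc k0 x0 ε hε
  obtain ⟨T2, hT2⟩ : ∃ T2 : ℕ, 1 / κ ^ 4 + x1 / κ ^ 3 + 1 ≤ T2 := exists_nat_ge _
  obtain ⟨r0, h0⟩ := poly_sizes f hf hT θ hθ K0 y0 (T0 + T2 + 1) (max R0 5) η' κ (max x1 (2 * κ)) hη' hκ
    (le_max_of_le_left hx1.le)
  refine ⟨max r0 2, ?_⟩
  intro r hr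
  have hr2 : 2 ≤ r := (le_max_right _ _).trans hr
  filter_upwards [h0 r ((le_max_left _ _).trans hr), V_small f hf r hr2 κ hκ] with X hX hVs
  intro Y hXY
  obtain ⟨y, hy⟩ : ∃ y, y = ⌊(X : ℝ) ^ (1 / (r : ℝ))⌋₊ := ⟨_, rfl⟩
  rw [← hy] at hVs ⊢
  obtain ⟨a1, a2, a3⟩ := hX Y hXY y hy
  have hV0 : 0 < Vq (Q f) y := Vq_pos (Q f) (fun p hp => Poly.adm f hf p hp) y
  obtain ⟨T', c1, c2, -⟩ := exists_window (Vq (Q f) y) κ hV0 hVs
  obtain ⟨d1, d2, -⟩ := a3 T' c1 (c2.trans (le_max_right _ _))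
  have hT1 : 1 ≤ T' := by omega
  have hT'r1 : (1 : ℝ) ≤ T' := by exact_mod_cast hT1
  have hT'5 : T' ^ 5 ≤ Y := (Nat.pow_le_pow_right hT1 (le_max_right _ _)).trans d2
  have hT'5r : (T' : ℝ) ^ 5 ≤ Y := by exact_mod_cast hT'5
  have hT'2 : 1 / κ ^ 4 + x1 / κ ^ 3 + 1 ≤ T' := hT2.trans (by exact_mod_cast (by omega : T2 ≤ T'))
  have hq1 : 0 < 1 / κ ^ 4 := by positivity
  have hq2 : 0 < x1 / κ ^ 3 := by positivity
  have hT'0 : (0 : ℝ) < T' := by linarith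
  have hVlow : κ / T' ≤ Vq (Q f) y := by
    rw [div_le_iff₀ hT'0]
    linarith
  have hY0 : (0 : ℝ) < Y := lt_of_lt_of_le (by positivity) hT'5r
  have hT'3 : (T' : ℝ) ≤ T' ^ 3 := by
    calc (T' : ℝ) = T' ^ 1 := (pow_one _).symm
      _ ≤ T' ^ 3 := pow_le_pow_right₀ hT'r1 (by norm_num)
  have hs1 : (T' : ℝ) / κ ^ 2 ≤ √(Y : ℝ) := by
    apply Real.le_sqrt_of_sq_le
    calc ((T' : ℝ) / κ ^ 2) ^ 2 = (T' : ℝ) ^ 2 * (1 / κ ^ 4) := by
          field_simp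
      _ ≤ (T' : ℝ) ^ 2 * (T' : ℝ) ^ 3 := by
          apply mul_le_mul_of_nonneg_left _ (by positivity)
          linarith
      _ = (T' : ℝ) ^ 5 := by ring
      _ ≤ Y := hT'5r
  refine hgap (Q f) X Y y hQ (fun p hp => Poly.adm f hf p hp) a1 a2 hVs ?_ ?_ ?_
  · have h1 : √(Y : ℝ) * √(Y : ℝ) = Y := Real.mul_self_sqrt hY0.le
    have h2 : (1 : ℝ) ≤ κ ^ 2 / T' * √(Y : ℝ) := by
      calc (1 : ℝ) = κ ^ 2 / T' * (T' / κ ^ 2) := by field_simp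
        _ ≤ κ ^ 2 / T' * √(Y : ℝ) := mul_le_mul_of_nonneg_left hs1 (by positivity)
    calc √(Y : ℝ) = 1 * √(Y : ℝ) := (one_mul _).symm
      _ ≤ (κ ^ 2 / T' * √(Y : ℝ)) * √(Y : ℝ) := by
          apply mul_le_mul_of_nonneg_right h2 (Real.sqrt_nonneg _)
      _ = κ * (Y * (κ / T')) := by
          rw [mul_assoc, h1]
          ring
      _ ≤ κ * (Y * Vq (Q f) y) := by gcongr
  · rw [div_le_iff₀ hV0]
    have h1 : x1 ≤ T' ^ 3 * κ ^ 3 := by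
      have : x1 / κ ^ 3 ≤ T' ^ 3 := by linarith
      rwa [div_le_iff₀ (by positivity)] at this
    calc x1 ≤ T' ^ 3 * κ ^ 3 := h1
      _ = κ * (T' ^ 5 * (κ / T')) * (κ / T') := by
          field_simp
      _ ≤ κ * (Y * Vq (Q f) y) * Vq (Q f) y := by gcongr
  · intro T h1 h2
    obtain ⟨b1, b2, b3⟩ := a3 T h1 (h2.trans (le_max_left _ _))
    have hT1 : 1 ≤ T := by omega
    exact ⟨by omega, (Nat.pow_le_pow_right hT1 (le_max_left _ _)).trans b2, b3⟩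

/-- the windows of bounded mean are short -/
lemma window_le [Nonempty ι] (f : ι → ℤ[X]) (hf : Sys f) (hT : NoTr f) (x0 : ℝ) :
    ∃ r0 : ℕ, ∀ r : ℕ, r0 ≤ r → ∀ᶠ X : ℕ in atTop,
      ∀ T : ℕ, T * Vq (Q f) ⌊(X : ℝ) ^ (1 / (r : ℝ))⌋₊ ≤ x0 → T ≤ X := by
  obtain ⟨r0, h0⟩ := poly_sizes f hf hT 1 one_pos 0 0 0 1 1 1 (max x0 2) one_pos one_pos
    (le_max_of_le_right (by norm_num))
  refine ⟨max r0 2, ?_⟩
  intro r hr
  have hr2 : 2 ≤ r := (le_max_right _ _).trans hr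
  filter_upwards [h0 r ((le_max_left _ _).trans hr), V_small f hf r hr2 1 one_pos] with X hX hVs
  intro T hTx
  obtain ⟨y, hy⟩ : ∃ y, y = ⌊(X : ℝ) ^ (1 / (r : ℝ))⌋₊ := ⟨_, rfl⟩
  rw [← hy] at hVs hTx
  obtain ⟨-, -, a3⟩ := hX X (by rw [Real.rpow_one]) y hy
  have hV0 : 0 < Vq (Q f) y := Vq_pos (Q f) (fun p hp => Poly.adm f hf p hp) y
  obtain ⟨T', c1, c2, c3⟩ := exists_window (Vq (Q f) y) 1 hV0 hVs
  by_cases h : T * Vq (Q f) y < 1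
  · have h1 := (a3 T' c1 (c2.trans (by
      rw [mul_one]
      exact le_max_right _ _))).2.1
    rw [pow_one] at h1
    exact (c3 T h).trans h1
  · rw [not_lt] at h
    have h1 := (a3 T h (hTx.trans (le_max_left _ _))).2.1
    rwa [pow_one] at h1

/-- the condition: every `f i (m)` has at most `r * deg (f i)` prime factors, all larger than
`X ^ (1 / r)` -/
def AP (f : ι → ℤ[X]) (r X m : ℕ) : Prop :=
  ∀ i, ((f i).eval (m : ℤ)).natAbs.primeFactorsList.length ≤ r * (f i).natDegree ∧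
    ∀ p : ℕ, p.Prime → (p : ℤ) ∣ (f i).eval (m : ℤ) → (X : ℝ) ^ (1 / (r : ℝ)) < (p : ℝ)

lemma eval_bd (f : ℤ[X]) (X m : ℕ) (hX : 1 ≤ X) (hm : m ≤ 3 * X) :
    |(((f.eval (m : ℤ)) : ℤ) : ℝ)| ≤
      (∑ j ∈ range (f.natDegree + 1), |((f.coeff j : ℤ) : ℝ)| * 3 ^ j) * (X : ℝ) ^ f.natDegree := by
  rw [eval_eq_sum_range, Int.cast_sum, Finset.sum_mul]
  refine (Finset.abs_sum_le_sum_abs _ _).trans (Finset.sum_le_sum fun j hj => ?_)
  have hj' : j ≤ f.natDegree := by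
    rw [mem_range] at hj
    omega
  have hX1 : (1 : ℝ) ≤ X := by exact_mod_cast hX
  have hm' : (m : ℝ) ≤ 3 * X := by exact_mod_cast hm
  push_cast
  rw [abs_mul, abs_of_nonneg (by positivity : (0 : ℝ) ≤ (m : ℝ) ^ j), mul_assoc]
  apply mul_le_mul_of_nonneg_left _ (abs_nonneg _)
  calc (m : ℝ) ^ j ≤ (3 * (X : ℝ)) ^ j := by gcongr
    _ = 3 ^ j * (X : ℝ) ^ j := mul_pow _ _ _
    _ ≤ 3 ^ j * (X : ℝ) ^ f.natDegree := by
        apply mul_le_mul_of_nonneg_left _ (by positivity)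
        exact pow_le_pow_right₀ hX1 hj'

open Classical in
lemma sf_AP (f : ι → ℤ[X]) (hf : Sys f) (r : ℕ) (hr : 1 ≤ r) :
    ∀ᶠ X : ℕ in atTop, ∀ m : ℕ, m ≤ 3 * X →
    (Sf (Q f) ⌊(X : ℝ) ^ (1 / (r : ℝ))⌋₊ m ↔ AP f r X m) := by
  have hr0 : (r : ℝ) ≠ 0 := by exact_mod_cast (by omega : r ≠ 0)
  have hrpos : (0 : ℝ) < r := by exact_mod_cast (by omega : 0 < r)
  have hpow1 : Tendsto (fun X : ℕ => (X : ℝ) ^ (1 / (r : ℝ))) atTop atTop :=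
    (tendsto_rpow_atTop (by positivity)).comp tendsto_natCast_atTop_atTop
  obtain ⟨B, hB⟩ : ∃ B : ℝ, B = ∑ i, ∑ j ∈ range ((f i).natDegree + 1),
      |(((f i).coeff j : ℤ) : ℝ)| * 3 ^ j := ⟨_, rfl⟩
  have hBi : ∀ i, ∑ j ∈ range ((f i).natDegree + 1), |(((f i).coeff j : ℤ) : ℝ)| * 3 ^ j ≤ B := by
    intro i
    rw [hB]
    exact Finset.single_le_sum (f := fun i => ∑ j ∈ range ((f i).natDegree + 1),
      |(((f i).coeff j : ℤ) : ℝ)| * 3 ^ j) (fun i _ => Finset.sum_nonneg fun j _ => by positivity)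
      (mem_univ i)
  have hB0 : 0 ≤ B := by
    rw [hB]
    exact Finset.sum_nonneg fun i _ => Finset.sum_nonneg fun j _ => by positivity
  filter_upwards [hpow1.eventually_ge_atTop (B + 2),
    eventually_ge_atTop 2] with X hX hX2
  intro m hm
  have hX0 : (0 : ℝ) < X := by exact_mod_cast (by omega : 0 < X)
  have hX1 : (1 : ℝ) ≤ X := by exact_mod_cast (by omega : 1 ≤ X)
  have h2 : (2 : ℝ) ≤ (X : ℝ) ^ (1 / (r : ℝ)) := by linarith
  have h2mem : 2 ∈ pz ⌊(X : ℝ) ^ (1 / (r : ℝ))⌋₊ := by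
    rw [mem_pz]
    exact ⟨Nat.le_floor (by exact_mod_cast h2), Nat.prime_two⟩
  constructor
  · intro h i
    have h3 : ∀ p : ℕ, p.Prime → (p : ℤ) ∣ (f i).eval (m : ℤ) →
        (X : ℝ) ^ (1 / (r : ℝ)) < (p : ℝ) := by
      intro p hp hd
      apply not_mem_pz hp
      intro hmem
      exact h p hmem ⟨i, hd⟩
    have hne : (f i).eval (m : ℤ) ≠ 0 := by
      intro h0
      apply h 2 h2mem
      exact ⟨i, by rw [h0]; exact dvd_zero _⟩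
    refine ⟨?_, h3⟩
    apply length_le _ (r * (f i).natDegree) (Int.natAbs_ne_zero.2 hne) _
      (fun p hp hd => h3 p hp (Int.natCast_dvd.2 hd)) _ (by linarith)
    have e1 : ((X : ℝ) ^ (1 / (r : ℝ))) ^ (r * (f i).natDegree + 1) =
        X ^ (f i).natDegree * (X : ℝ) ^ (1 / (r : ℝ)) := by
      rw [pow_succ]
      congr 1
      rw [← Real.rpow_natCast, ← Real.rpow_mul hX0.le]
      have : (1 / (r : ℝ)) * ((r * (f i).natDegree : ℕ) : ℝ) = (((f i).natDegree : ℕ) : ℝ) := by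
        push_cast
        field_simp
      rw [this, Real.rpow_natCast]
    rw [e1]
    have e2 : ((((f i).eval (m : ℤ)).natAbs : ℕ) : ℝ) = |(((f i).eval (m : ℤ) : ℤ) : ℝ)| := by
      rw [Nat.cast_natAbs, Int.cast_abs]
    rw [e2]
    refine (eval_bd (f i) X m (by omega) hm).trans ?_
    rw [mul_comm]
    apply mul_le_mul_of_nonneg_left _ (by positivity)
    have := hBi i
    linarith
  · intro h p hp hq
    obtain ⟨i, hi⟩ := hq
    have h1 := (h i).2 p (mem_pz.1 hp).2 hi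
    have h2 := mem_pz' (by positivity) hp
    linarith

lemma V_eq (f : ι → ℤ[X]) (y : ℕ) (om : ℕ → ℕ) (hom : ∀ p, om p = nuB (Q f) p) :
    Vq (Q f) y = ∏ p ∈ (Finset.range (y + 1)).filter Nat.Prime, (1 - (om p : ℝ) / p) := by
  unfold Vq
  apply Finset.prod_congr
  · unfold pz
    ext p
    simp only [mem_filter, mem_Icc, mem_range]
    constructor
    · rintro ⟨h1, h2⟩
      exact ⟨by omega, h2⟩
    · rintro ⟨h1, h2⟩
      exact ⟨⟨h2.one_lt.le, by omega⟩, h2⟩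
  · intro p _
    rw [hom p]

/-- systems without integer translates -/
lemma noTr_of (f : ι → ℤ[X]) (hdeg : ∀ i, 0 < (f i).natDegree)
    (hT : ∀ i j, i ≠ j → ∀ t : ℤ, f i ≠ (f j).comp (X + C t)) : NoTr f := by
  intro i j t ht
  by_cases hij : i = j
  · subst hij
    exact noTr_single (f i) (hdeg i) 0 0 t ht
  · exact hT i j hij t

lemma inj_of (f : ι → ℤ[X]) (hT : ∀ i j, i ≠ j → ∀ t : ℤ, f i ≠ (f j).comp (X + C t)) :
    Function.Injective f := by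
  intro i j hij
  by_contra h
  apply hT i j h 0
  rw [C_0, add_zero, comp_X]
  exact hij

end Pool.Agent.Y871.AP
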